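import Pool.Agent.Q291.HB.Mass
import Pool.Agent.Q294.Sl5

/-!
The number of boundary vertices visited by the critical boundary path of the O(0) model on the
hexagonal lattice, in the half-plane between two boundary vertices and in strips between the two
boundaries, has an exponential tail which does not depend on the end point or on the width.

Idea: at most of the visits of the boundary the path runs along a boundary hexagon; this run can be
replaced by the complementary arc of the hexagon, independently at every second hexagon, and the new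
path lies in the domain enlarged by one row.
-/

set_option autoImplicit false

namespace Pool.Agent.Results.MP_4960b8_pr.BoundaryVisitsTail

open scoped ENNReal

/-- Adjacency in the honeycomb lattice (brick-wall coordinates). -/
def Nbr (p q : ℤ × ℤ) : Prop :=
  (p.2 = q.2 ∧ (p.1 - q.1 = 1 ∨ q.1 - p.1 = 1)) ∨
    (p.1 = q.1 ∧ ((q.2 = p.2 + 1 ∧ Even (p.1 + p.2)) ∨ (p.2 = q.2 + 1 ∧ Even (q.1 + q.2))))

/-- The self-avoiding trajectories from `a` to `b` in `D`, as lists of vertices. -/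
def Traj (D : Set (ℤ × ℤ)) (a b : ℤ × ℤ) : Set (List (ℤ × ℤ)) :=
  {l | l.head? = some a ∧ l.getLast? = some b ∧ l.Nodup ∧ l.IsChain Nbr ∧ ∀ p ∈ l, p ∈ D}

/-- The critical fugacity `1 / μ`. -/
noncomputable def xc : ℝ≥0∞ := ENNReal.ofReal (1 / Real.sqrt (2 + Real.sqrt 2))

/-- the half-plane; the level of `p` is `p.1 - p.2` -/
def HP : Set (ℤ × ℤ) := {p | 1 ≤ p.1 - p.2}

/-- the strip with `2 T` levels -/
def Strip (T : ℕ) : Set (ℤ × ℤ) := {p | 1 ≤ p.1 - p.2 ∧ p.1 - p.2 ≤ 2 * T}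

/-- the paths in the half-plane from `(1, 0)` to the boundary vertex `(1 + j, j)` -/
def Arcs (j : ℤ) : Set (List (ℤ × ℤ)) := Traj HP (1, 0) (1 + j, j)

/-- the paths which cross the strip, from `(1, 0)` to its highest level -/
def Cross (T : ℕ) : Set (List (ℤ × ℤ)) :=
  {l | ∃ x : ℤ, l ∈ Traj (Strip T) (1, 0) (2 * T + x, x)}

/-- the partition function of a set of paths -/
noncomputable def Z (x : ℝ≥0∞) (S : Set (List (ℤ × ℤ))) : ℝ≥0∞ := ∑' l : S, x ^ (l.1.length - 1)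

/-- the number of visited vertices of the level `k` -/
noncomputable def Vis (k : ℤ) (l : List (ℤ × ℤ)) : ℕ := {p | p ∈ l ∧ p.1 - p.2 = k}.ncard

/-- **Theorem.** (1) Half-plane: for every `j` and `m`, the critical path from `(1, 0)` to the
boundary vertex `(1 + j, j)` visits at least `m` boundary vertices with probability at most
`29 (24/25)^m`. (2) Strips: for every `T ≥ 2` and `m`, the critical crossing path visits at least `m`
vertices of the lowest and of the highest level together with probability at most `29 (24/25)^m`.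
(3) The same for the crossing paths in a domain `D`, with the factor
`Z (Cross T) / Z (crossing paths in D)`. (4) For every fugacity `x ≤ 1` the exponential moments with
the rate `(1 + x ^ 4) ^ (1 / 2)` are bounded: for the arcs by `2 / x ^ 4` times the partition
function, for the crossing paths by `2 / x ^ 4` times the partition function of the strip with four
more levels. -/
theorem result :
    (∀ (j : ℤ) (m : ℕ), Z xc (Arcs j) ≤ 6 ∧ Z xc {l | l ∈ Arcs j ∧ m ≤ Vis 1 l} ≤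
      ENNReal.ofReal (29 * (24 / 25) ^ m) * Z xc (Arcs j)) ∧
    (∀ T : ℕ, 2 ≤ T → (0 < Z xc (Cross T) ∧ Z xc (Cross T) < ⊤) ∧ ∀ m : ℕ,
      Z xc {l | l ∈ Cross T ∧ m ≤ Vis 1 l + Vis (2 * T) l} / Z xc (Cross T) ≤
        ENNReal.ofReal (29 * (24 / 25) ^ m) ∧
      ∀ D : Set (ℤ × ℤ),
        Z xc {l | (l ∈ Cross T ∧ ∀ p ∈ l, p ∈ D) ∧ m ≤ Vis 1 l + Vis (2 * T) l} /
            Z xc {l | l ∈ Cross T ∧ ∀ p ∈ l, p ∈ D} ≤
          ENNReal.ofReal (29 * (24 / 25) ^ m) *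
            (Z xc (Cross T) / Z xc {l | l ∈ Cross T ∧ ∀ p ∈ l, p ∈ D})) ∧
    ∀ x : ℝ≥0∞, x ≤ 1 →
      (∀ j : ℤ, x ^ 4 * ∑' l : Arcs j, x ^ (l.1.length - 1) * (1 + x ^ 4) ^ ((Vis 1 l.1 - 4) / 2) ≤
        2 * Z x (Arcs j)) ∧
      ∀ T : ℕ, 2 ≤ T → x ^ 4 * ∑' l : Cross T, x ^ (l.1.length - 1) *
          (1 + x ^ 4) ^ ((Vis 1 l.1 + Vis (2 * T) l.1 - 4) / 2) ≤ 2 * Z x (Cross (T + 2)) := by
  have hs : ∀ x : ℝ≥0∞, x ≤ 1 → ∀ T : ℕ, 2 ≤ T → x ^ 4 * ∑' l : Cross T, x ^ (l.1.length - 1) *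
      (1 + x ^ 4) ^ ((Vis 1 l.1 + Vis (2 * T) l.1 - 4) / 2) ≤ 2 * Z x (Cross (T + 2)) :=
    fun x hx T hT => Pool.Agent.Q291.HB.strip_main x hx hT
  have hh : ∀ x : ℝ≥0∞, x ≤ 1 → ∀ j : ℤ, x ^ 4 * ∑' l : Arcs j, x ^ (l.1.length - 1) *
      (1 + x ^ 4) ^ ((Vis 1 l.1 - 4) / 2) ≤ 2 * Z x (Arcs j) :=
    fun x hx j => Pool.Agent.Q291.HB.half_main x hx j
  have hmono : ∀ T : ℕ, 2 ≤ T → Z xc (Cross (T + 2)) ≤ Z xc (Cross T) := fun T hT =>
    (Q294.Sl.main_mass (T := T + 1) (by omega)).2.1.trans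
      (Q294.Sl.main_mass (T := T) (by omega)).2.1
  have hpos : ∀ T : ℕ, 2 ≤ T → 0 < Z xc (Cross T) := by
    intro T hT
    obtain ⟨s, rfl⟩ : ∃ s, T = s + 1 := ⟨T - 1, by omega⟩
    exact (Q294.Sl.main_mass (T := s) (by omega)).1
  have htop : ∀ T : ℕ, 2 ≤ T → Z xc (Cross T) < ⊤ := fun T hT =>
    (Q294.Sl.main_mass (T := T) (by omega)).2.2.1
  have htail : ∀ T : ℕ, 2 ≤ T → ∀ m : ℕ, Z xc {l | l ∈ Cross T ∧ m ≤ Vis 1 l + Vis (2 * T) l} ≤
      ENNReal.ofReal (29 * (24 / 25) ^ m) * Z xc (Cross T) := by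
    intro T hT m
    exact Pool.Agent.Q291.HB.tail_num (S := Cross T) (f := fun l => Vis 1 l + Vis (2 * T) l)
      ((hs xc Pool.Agent.Q291.HB.xc_le T hT).trans (mul_le_mul' le_rfl (hmono T hT))) m
  refine ⟨fun j m => ⟨?_, ?_⟩, fun T hT => ⟨⟨hpos T hT, htop T hT⟩, fun m => ⟨?_, fun D => ?_⟩⟩,
    fun x hx => ⟨hh x hx, hs x hx⟩⟩
  · exact (ENNReal.le_tsum (f := fun j : ℤ => Z xc (Arcs j)) j).trans Pool.Agent.Q291.HB.arcs_mass
  · exact Pool.Agent.Q291.HB.tail_num (S := Arcs j) (f := fun l => Vis 1 l)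
      (hh xc Pool.Agent.Q291.HB.xc_le j) m
  · exact ENNReal.div_le_of_le_mul (htail T hT m)
  · rw [← mul_div_assoc]
    refine ENNReal.div_le_div_right ((?_ : _ ≤ _).trans (htail T hT m)) _
    exact ENNReal.tsum_mono_subtype (fun l : List (ℤ × ℤ) => xc ^ (l.length - 1))
      (fun l hl => ⟨hl.1.1, hl.2⟩)

end Pool.Agent.Results.MP_4960b8_pr.BoundaryVisitsTail
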