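import Pool.Agent.Q78.CV.Rat

set_option autoImplicit false

/-!
# Local balance along the boundary path in the O(n) loop model
-/

namespace Pool.Agent.Results.MP_4960b8_pr.LocalBalance

open Filter Topology

/-- adjacency of the honeycomb lattice in brick-wall coordinates -/
def Adj (p q : ℤ × ℤ) : Prop :=
  q - p = (1, 0) ∨ q - p = (-1, 0) ∨
    (q - p = (0, 1) ∧ Even (p.1 + p.2)) ∨ (q - p = (0, -1) ∧ Even (q.1 + q.2))

/-- self-avoiding paths from `a` to `b` in the finite domain `D`, as lists of vertices -/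
def IsPath (D : Finset (ℤ × ℤ)) (a b : ℤ × ℤ) (γ : List (ℤ × ℤ)) : Prop :=
  γ.head? = some a ∧ γ.getLast? = some b ∧ γ.Nodup ∧ γ.IsChain Adj ∧ ∀ v ∈ γ, v ∈ D

/-- loop configurations: sets of edges of `D` such that every vertex has degree 0 or 2 -/
def IsLoops (D : Finset (ℤ × ℤ)) (ω : Finset (Sym2 (ℤ × ℤ))) : Prop :=
  (∀ e ∈ ω, ∃ p ∈ D, ∃ q ∈ D, Adj p q ∧ e = s(p, q)) ∧
    ∀ v, (ω.filter (fun e => v ∈ e)).card = 0 ∨ (ω.filter (fun e => v ∈ e)).card = 2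

/-- the number of loops: connected components with at least two vertices -/
noncomputable def loops (ω : Finset (Sym2 (ℤ × ℤ))) : ℕ :=
  Nat.card {c : (SimpleGraph.fromEdgeSet (ω : Set (Sym2 (ℤ × ℤ)))).ConnectedComponent //
    c.supp.Nontrivial}

/-- configurations of the loop model: a path from `a` to `b` and loops disjoint from it -/
def Conf (D : Finset (ℤ × ℤ)) (a b : ℤ × ℤ) : Set (List (ℤ × ℤ) × Finset (Sym2 (ℤ × ℤ))) :=
  {c | IsPath D a b c.1 ∧ IsLoops D c.2 ∧ ∀ v ∈ c.1, ∀ e ∈ c.2, v ∉ e}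

/-- the number of steps of the path -/
def steps (c : List (ℤ × ℤ) × Finset (Sym2 (ℤ × ℤ))) : ℕ := c.1.length - 1

/-- the weight of a configuration -/
noncomputable def weight (n x : ℝ) (c : List (ℤ × ℤ) × Finset (Sym2 (ℤ × ℤ))) : ℝ :=
  x ^ (steps c + c.2.card) * n ^ loops c.2

/-- the partition function of the model with a path -/
noncomputable def Zpath (n x : ℝ) (D : Finset (ℤ × ℤ)) (a b : ℤ × ℤ) : ℝ :=
  ∑ᶠ c ∈ Conf D a b, weight n x c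

/-- the partition function of the loops alone -/
noncomputable def Zloops (n x : ℝ) (D : Finset (ℤ × ℤ)) : ℝ :=
  ∑ᶠ ω ∈ {ω | IsLoops D ω}, x ^ ω.card * n ^ loops ω

/-- the two-point function -/
noncomputable def G (n x : ℝ) (D : Finset (ℤ × ℤ)) (a b : ℤ × ℤ) : ℝ :=
  Zpath n x D a b / Zloops n x D

/-- the expectation for the loop model with a path -/
noncomputable def E (n x : ℝ) (D : Finset (ℤ × ℤ)) (a b : ℤ × ℤ)
    (F : List (ℤ × ℤ) × Finset (Sym2 (ℤ × ℤ)) → ℝ) : ℝ :=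
  (∑ᶠ c ∈ Conf D a b, weight n x c * F c) / Zpath n x D a b

open scoped Classical in
/-- the probability of an event -/
noncomputable def Pr (n x : ℝ) (D : Finset (ℤ × ℤ)) (a b : ℤ × ℤ)
    (A : List (ℤ × ℤ) × Finset (Sym2 (ℤ × ℤ)) → Prop) : ℝ :=
  E n x D a b (fun c => if A c then 1 else 0)

/-- two paths with the same end points, `i` and `j` vertices, and no other common vertex -/
def Detour (i j : ℕ) (U U' : List (ℤ × ℤ)) : Prop :=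
  (∃ p r X X', U = p :: (X ++ [r]) ∧ U' = p :: (X' ++ [r]) ∧ (∀ v ∈ X, v ∉ U') ∧
    ∀ v ∈ X', v ∉ U) ∧ U.Nodup ∧ U'.Nodup ∧ U.IsChain Adj ∧ U'.IsChain Adj ∧
    U.length = i ∧ U'.length = j

/-- the detours `(U, U')` such that `U` is a piece of the path and the other vertices of `U'` are
vertices of the domain which are neither on the path nor on a loop -/
def Up (i j : ℕ) (D : Finset (ℤ × ℤ)) (c : List (ℤ × ℤ) × Finset (Sym2 (ℤ × ℤ))) :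
    Set (List (ℤ × ℤ) × List (ℤ × ℤ)) :=
  {q | Detour i j q.1 q.2 ∧ q.1 <:+: c.1 ∧
    ∀ v ∈ q.2, v ∉ q.1 → v ∈ D ∧ v ∉ c.1 ∧ ∀ e ∈ c.2, v ∉ e}

/-- the same with `U` and `U'` exchanged -/
def Down (i j : ℕ) (D : Finset (ℤ × ℤ)) (c : List (ℤ × ℤ) × Finset (Sym2 (ℤ × ℤ))) :
    Set (List (ℤ × ℤ) × List (ℤ × ℤ)) :=
  {q | Detour i j q.1 q.2 ∧ q.2 <:+: c.1 ∧
    ∀ v ∈ q.1, v ∉ q.2 → v ∈ D ∧ v ∉ c.1 ∧ ∀ e ∈ c.2, v ∉ e}

/-- the critical points -/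
noncomputable def xc (n : ℝ) : ℝ := 1 / √(2 + √(2 - n))

/-! ### proofs -/

theorem adj_eq : Adj = TH966.AK.AdjH := rfl

theorem loops_finite (D : Finset (ℤ × ℤ)) : {ω | IsLoops D ω}.Finite := by
  classical
  refine Set.Finite.subset (Finset.finite_toSet
    ((D ×ˢ D).image (fun p => s(p.1, p.2))).powerset) ?_
  intro ω hω
  rw [Finset.mem_coe, Finset.mem_powerset]
  intro e he
  obtain ⟨p, hp, q, hq, -, rfl⟩ := hω.1 e he
  rw [Finset.mem_image]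
  exact ⟨(p, q), Finset.mem_product.2 ⟨hp, hq⟩, rfl⟩

/-- the finset of loop configurations -/
noncomputable def Lam (D : Finset (ℤ × ℤ)) : Finset (Finset (Sym2 (ℤ × ℤ))) :=
  (loops_finite D).toFinset

theorem mem_Lam {D : Finset (ℤ × ℤ)} {ω : Finset (Sym2 (ℤ × ℤ))} : ω ∈ Lam D ↔ IsLoops D ω := by
  unfold Lam
  rw [Set.Finite.mem_toFinset]
  rfl

/-- the weight of the loops -/
noncomputable def wt (n x : ℝ) (ω : Finset (Sym2 (ℤ × ℤ))) : ℝ := x ^ ω.card * n ^ loops ω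

theorem wt_nonneg {n x : ℝ} (hn : 0 ≤ n) (hx : 0 < x) (ω : Finset (Sym2 (ℤ × ℤ))) :
    0 ≤ wt n x ω := by
  unfold wt
  positivity

theorem Zloops_eq (n x : ℝ) (D : Finset (ℤ × ℤ)) : Zloops n x D = ∑ ω ∈ Lam D, wt n x ω := by
  unfold Zloops
  rw [← finsum_mem_coe_finset]
  refine finsum_mem_congr ?_ fun _ _ => rfl
  ext ω
  rw [Finset.mem_coe, mem_Lam]
  rfl

theorem loops_empty : loops ∅ = 0 := by
  unfold loops
  have : IsEmpty {c : (SimpleGraph.fromEdgeSet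
      ((∅ : Finset (Sym2 (ℤ × ℤ))) : Set (Sym2 (ℤ × ℤ)))).ConnectedComponent //
      c.supp.Nontrivial} := by
    refine ⟨?_⟩
    rintro ⟨c, v, hv, u, hu, huv⟩
    rw [SimpleGraph.ConnectedComponent.mem_supp_iff] at hv hu
    rw [← hu, SimpleGraph.ConnectedComponent.eq] at hv
    rw [Finset.coe_empty, SimpleGraph.fromEdgeSet_empty] at hv
    exact huv (SimpleGraph.reachable_bot.1 hv)
  exact Nat.card_of_isEmpty

theorem empty_mem (D : Finset (ℤ × ℤ)) : (∅ : Finset (Sym2 (ℤ × ℤ))) ∈ Lam D := by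
  rw [mem_Lam]
  exact ⟨fun e he => absurd he (Finset.notMem_empty e), fun v => Or.inl rfl⟩

theorem sum_pos {n x : ℝ} (hn : 0 ≤ n) (hx : 0 < x) (D : Finset (ℤ × ℤ)) :
    0 < ∑ ω ∈ Lam D, wt n x ω := by
  have h1 : wt n x ∅ = 1 := by
    unfold wt
    rw [loops_empty, Finset.card_empty, pow_zero, pow_zero, one_mul]
  have h2 : wt n x ∅ ≤ ∑ ω ∈ Lam D, wt n x ω :=
    Finset.single_le_sum (fun ω _ => wt_nonneg hn hx ω) (empty_mem D)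
  rw [h1] at h2
  linarith

/-- free vertices -/
def Pd (D : Finset (ℤ × ℤ)) (ω : Finset (Sym2 (ℤ × ℤ))) (v : ℤ × ℤ) : Prop :=
  v ∈ D ∧ ∀ e ∈ ω, v ∉ e

/-- the relation after moving `a` to the origin -/
def Rel (τ : ℤ × ℤ ≃ ℤ × ℤ) (D : Finset (ℤ × ℤ)) (b : ℤ × ℤ) (ω : Finset (Sym2 (ℤ × ℤ)))
    (e y : ℤ × ℤ) : Prop := e = τ b ∧ Pd D ω (τ.symm y)

/-- walks -/
noncomputable def W (τ : ℤ × ℤ ≃ ℤ × ℤ) (D : Finset (ℤ × ℤ)) (b : ℤ × ℤ)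
    (ω : Finset (Sym2 (ℤ × ℤ))) (m : ℕ) : Finset (List (ℤ × ℤ)) :=
  Q294.Rs.KR TH966.AK.Hex.A (Rel τ D b ω) m

theorem mem_W {τ : ℤ × ℤ ≃ ℤ × ℤ} {a : ℤ × ℤ} (hτa : τ a = 0)
    (hτ : ∀ p q, Adj (τ p) (τ q) ↔ Adj p q) (D : Finset (ℤ × ℤ)) (b : ℤ × ℤ)
    (ω : Finset (Sym2 (ℤ × ℤ))) (m : ℕ) (l : List (ℤ × ℤ)) :
    l.map τ ∈ W τ D b ω m ↔ (IsPath D a b l ∧ ∀ v ∈ l, ∀ e ∈ ω, v ∉ e) ∧ l.length = m + 1 := by
  unfold W Rel
  rw [← Q78.CV.mem_KR_iff hτa hτ (Pd D ω) b m l]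
  unfold IsPath Pd
  rw [adj_eq]
  constructor
  · rintro ⟨⟨h1, h2, h3, h4, h5⟩, h6⟩
    exact ⟨⟨⟨h1, h2, h3, h4, fun v hv => (h5 v hv).1⟩, fun v hv => (h5 v hv).2⟩, h6⟩
  · rintro ⟨⟨⟨h1, h2, h3, h4, h5⟩, h6⟩, h7⟩
    exact ⟨⟨h1, h2, h3, h4, fun v hv => ⟨h5 v hv, h6 v hv⟩⟩, h7⟩

theorem map_map {τ : ℤ × ℤ ≃ ℤ × ℤ} (w : List (ℤ × ℤ)) : (w.map τ.symm).map τ = w := by
  rw [List.map_map, Equiv.self_comp_symm, List.map_id]

theorem mem_W' {τ : ℤ × ℤ ≃ ℤ × ℤ} {a : ℤ × ℤ} (hτa : τ a = 0)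
    (hτ : ∀ p q, Adj (τ p) (τ q) ↔ Adj p q) (D : Finset (ℤ × ℤ)) (b : ℤ × ℤ)
    (ω : Finset (Sym2 (ℤ × ℤ))) (m : ℕ) (w : List (ℤ × ℤ)) :
    w ∈ W τ D b ω m ↔ (IsPath D a b (w.map τ.symm) ∧ ∀ v ∈ w.map τ.symm, ∀ e ∈ ω, v ∉ e) ∧
      w.length = m + 1 := by
  have h := mem_W hτa hτ D b ω m (w.map τ.symm)
  rw [map_map, List.length_map] at h
  exact h

theorem W_empty {τ : ℤ × ℤ ≃ ℤ × ℤ} {a : ℤ × ℤ} (hτa : τ a = 0)
    (hτ : ∀ p q, Adj (τ p) (τ q) ↔ Adj p q) (D : Finset (ℤ × ℤ)) (b : ℤ × ℤ)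
    (ω : Finset (Sym2 (ℤ × ℤ))) (m : ℕ) (hm : D.card ≤ m) : W τ D b ω m = ∅ := by
  rw [Finset.eq_empty_iff_forall_notMem]
  intro w hw
  rw [mem_W' hτa hτ] at hw
  obtain ⟨⟨⟨-, -, h1, -, h2⟩, -⟩, h3⟩ := hw
  have h4 : (w.map τ.symm).toFinset ⊆ D := fun v hv => h2 v (List.mem_toFinset.1 hv)
  have h5 := Finset.card_le_card h4
  rw [List.toFinset_card_of_nodup h1, List.length_map] at h5
  omega

/-- sums over the configurations -/
theorem sum_conf {τ : ℤ × ℤ ≃ ℤ × ℤ} {a : ℤ × ℤ} (hτa : τ a = 0)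
    (hτ : ∀ p q, Adj (τ p) (τ q) ↔ Adj p q) (D : Finset (ℤ × ℤ)) (b : ℤ × ℤ)
    (f : List (ℤ × ℤ) × Finset (Sym2 (ℤ × ℤ)) → ℝ) :
    ∑ᶠ c ∈ Conf D a b, f c =
      ∑ ω ∈ Lam D, ∑ m ∈ Finset.range D.card, ∑ w ∈ W τ D b ω m, f (w.map τ.symm, ω) := by
  have h1 : ∑ ω ∈ Lam D, ∑ m ∈ Finset.range D.card, ∑ w ∈ W τ D b ω m, f (w.map τ.symm, ω) =
      ∑ t ∈ (Lam D).sigma (fun ω => (Finset.range D.card).sigma (fun m => W τ D b ω m)),
        f (t.2.2.map τ.symm, t.1) := by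
    rw [Finset.sum_sigma]
    refine Finset.sum_congr rfl fun ω _ => ?_
    rw [Finset.sum_sigma]
  rw [h1, ← finsum_mem_coe_finset]
  symm
  refine finsum_mem_eq_of_bijOn (fun t => (t.2.2.map τ.symm, t.1)) ⟨?_, ?_, ?_⟩ fun _ _ => rfl
  · rintro ⟨ω, m, w⟩ ht
    rw [Finset.mem_coe, Finset.mem_sigma, Finset.mem_sigma] at ht
    obtain ⟨h2, -, h3⟩ := ht
    rw [mem_W' hτa hτ] at h3
    exact ⟨h3.1.1, mem_Lam.1 h2, h3.1.2⟩
  · rintro ⟨ω, m, w⟩ ht ⟨ω', m', w'⟩ ht' he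
    rw [Finset.mem_coe, Finset.mem_sigma, Finset.mem_sigma] at ht ht'
    simp only [Prod.mk.injEq] at he
    obtain ⟨he1, he2⟩ := he
    have he3 : w = w' := by
      have := congrArg (List.map τ) he1
      rwa [map_map, map_map] at this
    subst he2 he3
    have e1 := ((mem_W' hτa hτ D b ω m w).1 ht.2.2).2
    have e2 := ((mem_W' hτa hτ D b ω m' w).1 ht'.2.2).2
    have : m = m' := by omega
    subst this
    rfl
  · rintro ⟨γ, ω⟩ ⟨h2, h3, h4⟩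
    have hlen : γ.length ≠ 0 := by
      intro h
      rw [List.length_eq_zero_iff] at h
      have := h2.1
      rw [h] at this
      simp at this
    have hmem : γ.map τ ∈ W τ D b ω (γ.length - 1) :=
      (mem_W hτa hτ D b ω _ γ).2 ⟨⟨h2, h4⟩, by omega⟩
    refine ⟨⟨ω, γ.length - 1, γ.map τ⟩, ?_, ?_⟩
    · rw [Finset.mem_coe, Finset.mem_sigma, Finset.mem_sigma]
      refine ⟨mem_Lam.2 h3, ?_, hmem⟩
      rw [Finset.mem_range]
      by_contra hcon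
      rw [W_empty hτa hτ D b ω _ (not_lt.1 hcon)] at hmem
      exact absurd hmem (Finset.notMem_empty _)
    · show ((γ.map τ).map τ.symm, ω) = (γ, ω)
      rw [List.map_map, Equiv.symm_comp_self, List.map_id]

theorem sum_conf_weight {τ : ℤ × ℤ ≃ ℤ × ℤ} {a : ℤ × ℤ} (hτa : τ a = 0)
    (hτ : ∀ p q, Adj (τ p) (τ q) ↔ Adj p q) (n x : ℝ) (D : Finset (ℤ × ℤ)) (b : ℤ × ℤ)
    (f : List (ℤ × ℤ) × Finset (Sym2 (ℤ × ℤ)) → ℝ) :
    ∑ᶠ c ∈ Conf D a b, weight n x c * f c =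
      ∑ ω ∈ Lam D, wt n x ω * ∑ m ∈ Finset.range D.card, x ^ m *
        ∑ w ∈ W τ D b ω m, f (w.map τ.symm, ω) := by
  rw [sum_conf hτa hτ D b]
  refine Finset.sum_congr rfl fun ω _ => ?_
  rw [Finset.mul_sum]
  refine Finset.sum_congr rfl fun m _ => ?_
  rw [← mul_assoc, Finset.mul_sum]
  refine Finset.sum_congr rfl fun w hw => ?_
  rw [mem_W' hτa hτ] at hw
  have e : steps (w.map τ.symm, ω) = m := by
    unfold steps
    show (w.map τ.symm).length - 1 = m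
    rw [List.length_map, hw.2]
    omega
  unfold weight wt
  rw [e]
  show x ^ (m + ω.card) * n ^ loops ω * _ = _
  rw [pow_add]
  ring

theorem Zpath_eq {τ : ℤ × ℤ ≃ ℤ × ℤ} {a : ℤ × ℤ} (hτa : τ a = 0)
    (hτ : ∀ p q, Adj (τ p) (τ q) ↔ Adj p q) (n x : ℝ) (D : Finset (ℤ × ℤ)) (b : ℤ × ℤ) :
    Zpath n x D a b = ∑ ω ∈ Lam D, wt n x ω *
      Q78.CV.TT TH966.AK.Hex.A (Rel τ D b ω) x D.card := by
  unfold Zpath
  have h := sum_conf_weight hτa hτ n x D b (fun _ => 1)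
  simp only [mul_one] at h
  rw [h]
  refine Finset.sum_congr rfl fun ω _ => ?_
  unfold Q78.CV.TT
  congr 1
  refine Finset.sum_congr rfl fun m _ => ?_
  rw [Finset.sum_const, nsmul_eq_mul, mul_one]
  rfl

/-- sums over the upward detours -/
theorem sum_Up {τ : ℤ × ℤ ≃ ℤ × ℤ} {a : ℤ × ℤ} (hτa : τ a = 0)
    (hτ : ∀ p q, Adj (τ p) (τ q) ↔ Adj p q) (D : Finset (ℤ × ℤ)) (b : ℤ × ℤ)
    (ω : Finset (Sym2 (ℤ × ℤ))) (m : ℕ) {w : List (ℤ × ℤ)} (hw : w ∈ W τ D b ω m) (i s : ℕ)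
    (h : List (ℤ × ℤ) × List (ℤ × ℤ) → ℝ) :
    ∑ᶠ q ∈ Up i (i + s) D (w.map τ.symm, ω), h q =
      Q78.CV.NS (Q294.Rs.inn (Q78.CV.hdet i s) (Rel τ D b ω))
        (fun q => h (q.1.map τ.symm, q.2.map τ.symm)) w := by
  unfold Q78.CV.NS
  rw [← finsum_mem_coe_finset]
  symm
  refine finsum_mem_eq_of_bijOn (fun q => (q.1.map τ.symm, q.2.map τ.symm)) ⟨?_, ?_, ?_⟩
    fun _ _ => rfl
  · rintro ⟨U, U'⟩ hq
    have hw' : (w.map τ.symm).map τ ∈ Q294.Rs.KR TH966.AK.Hex.A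
        (fun e y => e = τ b ∧ Pd D ω (τ.symm y)) m := by
      rw [map_map]
      exact hw
    have h1 := Q78.CV.mem_S_iff hτa hτ (Pd D ω) b m hw' i s (U.map τ.symm) (U'.map τ.symm)
    rw [map_map, map_map, map_map] at h1
    have h2 := h1.1 hq
    refine ⟨?_, h2.2.1, fun v hv hv' => ?_⟩
    · obtain ⟨⟨⟨e1, e2, e3, e4, e5⟩, e6, e7⟩, -⟩ := h2
      exact ⟨e1, e2, e3, e4, e5, e6, e7⟩
    · have h3 := h2.2.2 v hv hv'
      exact ⟨h3.1.1, h3.2, h3.1.2⟩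
  · rintro ⟨U, U'⟩ _ ⟨V, V'⟩ _ he
    simp only [Prod.mk.injEq] at he
    have e1 := congrArg (List.map τ) he.1
    have e2 := congrArg (List.map τ) he.2
    rw [map_map, map_map] at e1 e2
    rw [e1, e2]
  · rintro ⟨U, U'⟩ ⟨h1, h2, h3⟩
    have hw' : (w.map τ.symm).map τ ∈ Q294.Rs.KR TH966.AK.Hex.A
        (fun e y => e = τ b ∧ Pd D ω (τ.symm y)) m := by
      rw [map_map]
      exact hw
    refine ⟨(U.map τ, U'.map τ), ?_, ?_⟩
    · have h4 := Q78.CV.mem_S_iff hτa hτ (Pd D ω) b m hw' i s U U'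
      rw [map_map] at h4
      refine h4.2 ⟨?_, h2, fun v hv hv' => ?_⟩
      · obtain ⟨e1, e2, e3, e4, e5, e6, e7⟩ := h1
        exact ⟨⟨e1, e2, e3, e4, e5⟩, e6, e7⟩
      · have h5 := h3 v hv hv'
        exact ⟨⟨h5.1, h5.2.2⟩, h5.2.1⟩
    · simp only [List.map_map, Equiv.symm_comp_self, List.map_id]

/-- sums over the downward detours -/
theorem sum_Down {τ : ℤ × ℤ ≃ ℤ × ℤ} {a : ℤ × ℤ} (hτa : τ a = 0)
    (hτ : ∀ p q, Adj (τ p) (τ q) ↔ Adj p q) (D : Finset (ℤ × ℤ)) (b : ℤ × ℤ)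
    (ω : Finset (Sym2 (ℤ × ℤ))) (m : ℕ) {w : List (ℤ × ℤ)} (hw : w ∈ W τ D b ω m) (i s : ℕ)
    (h : List (ℤ × ℤ) × List (ℤ × ℤ) → ℝ) :
    ∑ᶠ q ∈ Down i (i + s) D (w.map τ.symm, ω), h q =
      Q78.CV.NB (Q294.Rs.inn (Q78.CV.hdet i s) (Rel τ D b ω))
        (fun q => h (q.1.map τ.symm, q.2.map τ.symm)) w := by
  unfold Q78.CV.NB
  rw [← finsum_mem_coe_finset]
  symm
  refine finsum_mem_eq_of_bijOn (fun q => (q.1.map τ.symm, q.2.map τ.symm)) ⟨?_, ?_, ?_⟩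
    fun _ _ => rfl
  · rintro ⟨U, U'⟩ hq
    have hw' : (w.map τ.symm).map τ ∈ Q294.Rs.KR TH966.AK.Hex.A
        (fun e y => e = τ b ∧ Pd D ω (τ.symm y)) m := by
      rw [map_map]
      exact hw
    have h1 := Q78.CV.mem_B_iff hτa hτ (Pd D ω) b m hw' i s (U.map τ.symm) (U'.map τ.symm)
    rw [map_map, map_map, map_map] at h1
    have h2 := h1.1 hq
    refine ⟨?_, h2.2.1, fun v hv hv' => ?_⟩
    · obtain ⟨⟨⟨e1, e2, e3, e4, e5⟩, e6, e7⟩, -⟩ := h2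
      exact ⟨e1, e2, e3, e4, e5, e6, e7⟩
    · have h3 := h2.2.2 v hv hv'
      exact ⟨h3.1.1, h3.2, h3.1.2⟩
  · rintro ⟨U, U'⟩ _ ⟨V, V'⟩ _ he
    simp only [Prod.mk.injEq] at he
    have e1 := congrArg (List.map τ) he.1
    have e2 := congrArg (List.map τ) he.2
    rw [map_map, map_map] at e1 e2
    rw [e1, e2]
  · rintro ⟨U, U'⟩ ⟨h1, h2, h3⟩
    have hw' : (w.map τ.symm).map τ ∈ Q294.Rs.KR TH966.AK.Hex.A
        (fun e y => e = τ b ∧ Pd D ω (τ.symm y)) m := by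
      rw [map_map]
      exact hw
    refine ⟨(U.map τ, U'.map τ), ?_, ?_⟩
    · have h4 := Q78.CV.mem_B_iff hτa hτ (Pd D ω) b m hw' i s U U'
      rw [map_map] at h4
      refine h4.2 ⟨?_, h2, fun v hv hv' => ?_⟩
      · obtain ⟨e1, e2, e3, e4, e5, e6, e7⟩ := h1
        exact ⟨⟨e1, e2, e3, e4, e5⟩, e6, e7⟩
      · have h5 := h3 v hv hv'
        exact ⟨⟨h5.1, h5.2.2⟩, h5.2.1⟩
    · simp only [List.map_map, Equiv.symm_comp_self, List.map_id]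

theorem fsum_one {α : Type} (s : Set α) : ∑ᶠ i ∈ s, (1 : ℝ) = s.ncard := by
  rcases s.finite_or_infinite with hs | hs
  · rw [finsum_mem_eq_finite_toFinset_sum _ hs, Set.ncard_eq_toFinset_card s hs]
    simp
  · rw [hs.ncard, finsum_mem_eq_zero_of_infinite]
    · simp
    · have : s ∩ Function.support (fun _ : α => (1 : ℝ)) = s := by
        rw [Function.support_const (one_ne_zero), Set.inter_univ]
      rw [this]
      exact hs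

theorem card_Up {τ : ℤ × ℤ ≃ ℤ × ℤ} {a : ℤ × ℤ} (hτa : τ a = 0)
    (hτ : ∀ p q, Adj (τ p) (τ q) ↔ Adj p q) (D : Finset (ℤ × ℤ)) (b : ℤ × ℤ)
    (ω : Finset (Sym2 (ℤ × ℤ))) (m : ℕ) {w : List (ℤ × ℤ)} (hw : w ∈ W τ D b ω m) (i s : ℕ) :
    ((Up i (i + s) D (w.map τ.symm, ω)).ncard : ℝ) =
      Q78.CV.nS (Q78.CV.hdet i s) (Rel τ D b ω) w := by
  have h1 := sum_Up hτa hτ D b ω m hw i s (fun _ => 1)
  rw [fsum_one] at h1
  rw [h1]
  unfold Q78.CV.NS Q78.CV.nS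
  simp

theorem card_Down {τ : ℤ × ℤ ≃ ℤ × ℤ} {a : ℤ × ℤ} (hτa : τ a = 0)
    (hτ : ∀ p q, Adj (τ p) (τ q) ↔ Adj p q) (D : Finset (ℤ × ℤ)) (b : ℤ × ℤ)
    (ω : Finset (Sym2 (ℤ × ℤ))) (m : ℕ) {w : List (ℤ × ℤ)} (hw : w ∈ W τ D b ω m) (i s : ℕ) :
    ((Down i (i + s) D (w.map τ.symm, ω)).ncard : ℝ) =
      Q78.CV.nB (Q78.CV.hdet i s) (Rel τ D b ω) w := by
  have h1 := sum_Down hτa hτ D b ω m hw i s (fun _ => 1)
  rw [fsum_one] at h1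
  rw [h1]
  unfold Q78.CV.NB Q78.CV.nB
  simp

theorem xc_lt {κ : ℝ} (hκ : 1 < κ) : ∃ n₀ : ℝ, 0 < n₀ ∧ ∀ n, 0 ≤ n → n ≤ n₀ → xc n < κ * xc 0 := by
  have hc : ContinuousAt (fun n : ℝ => 1 / √(2 + √(2 - n))) 0 := by
    refine ContinuousAt.div continuousAt_const (by fun_prop) ?_
    exact (Real.sqrt_pos.2 (by positivity)).ne'
  have h0 : xc 0 < κ * xc 0 := by
    have : 0 < xc 0 := by unfold xc; positivity
    nlinarith
  have h1 := hc.eventually (eventually_lt_nhds h0)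
  rw [Metric.eventually_nhds_iff] at h1
  obtain ⟨ε, hε, h2⟩ := h1
  refine ⟨ε / 2, by linarith, fun n hn hn2 => h2 ?_⟩
  rw [Real.dist_eq, sub_zero, abs_of_nonneg hn]
  linarith

/-- the first part -/
theorem part_one (i s : ℕ) : ∃ C : ℝ, 0 < C ∧ ∀ n x : ℝ, 0 ≤ n → 0 < x →
    ∀ (D : Finset (ℤ × ℤ)) (a b : ℤ × ℤ)
    (h : Finset (Sym2 (ℤ × ℤ)) → List (ℤ × ℤ) × List (ℤ × ℤ) → ℝ), (∀ ω q, |h ω q| ≤ 1) →
    ∀ M : ℕ, 1 ≤ M →
      E n x D a b (fun c => ((x ^ s * ∑ᶠ q ∈ Up i (i + s) D c, h c.2 q -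
        ∑ᶠ q ∈ Down i (i + s) D c, h c.2 q) / ((max (steps c + 1) M : ℕ) : ℝ)) ^ 2) ≤
        C * (x ^ s * (1 + x ^ s)) / M := by
  refine ⟨Q78.CV.C2 (Q78.CV.hdet i s) + 1, by linarith [Q78.CV.C2_nonneg (Q78.CV.hdet i s)], ?_⟩
  intro n x hn hx D a b h hh M hM
  obtain ⟨τ, hτa, hτ⟩ := Q78.UR.hex_symm a
  have hMR : (1 : ℝ) ≤ M := by exact_mod_cast hM
  obtain ⟨c0, hc0⟩ : ∃ c0, c0 = Q78.CV.C2 (Q78.CV.hdet i s) := ⟨_, rfl⟩
  have hc00 : 0 ≤ c0 := by rw [hc0]; exact Q78.CV.C2_nonneg _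
  unfold E
  rw [sum_conf_weight hτa hτ, Zpath_eq hτa hτ, ← hc0]
  have hT : ∀ ω, 0 ≤ Q78.CV.TT TH966.AK.Hex.A (Rel τ D b ω) x D.card := by
    intro ω
    unfold Q78.CV.TT
    exact Finset.sum_nonneg fun _ _ => by positivity
  refine div_le_of_le_mul₀ (Finset.sum_nonneg fun ω _ =>
    mul_nonneg (wt_nonneg hn hx ω) (hT ω)) (by positivity) ?_
  rw [Finset.mul_sum]
  refine Finset.sum_le_sum fun ω _ => ?_
  rw [mul_left_comm]
  refine mul_le_mul_of_nonneg_left ?_ (wt_nonneg hn hx ω)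
  have hbal := Q78.CV.bal (Q294.Rs.inn (Q78.CV.hdet i s) (Rel τ D b ω)) hx
    (h := fun q => h ω (q.1.map τ.symm, q.2.map τ.symm)) (fun q => hh _ _) D.card
    (fun m hm => W_empty hτa hτ D b ω m hm) M hM
  have hs : (Q78.CV.hdet i s).s = s := rfl
  rw [hs, ← hc0] at hbal
  have e1 : ∑ m ∈ Finset.range D.card, x ^ m * ∑ w ∈ W τ D b ω m,
      (fun c : List (ℤ × ℤ) × Finset (Sym2 (ℤ × ℤ)) =>
        ((x ^ s * ∑ᶠ q ∈ Up i (i + s) D c, h c.2 q -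
        ∑ᶠ q ∈ Down i (i + s) D c, h c.2 q) / ((max (steps c + 1) M : ℕ) : ℝ)) ^ 2)
        (w.map τ.symm, ω) =
      ∑ m ∈ Finset.range D.card, x ^ m *
        ∑ w ∈ (Q294.Rs.inn (Q78.CV.hdet i s) (Rel τ D b ω)).K m,
        ((x ^ s * Q78.CV.NS (Q294.Rs.inn (Q78.CV.hdet i s) (Rel τ D b ω))
          (fun q => h ω (q.1.map τ.symm, q.2.map τ.symm)) w -
          Q78.CV.NB (Q294.Rs.inn (Q78.CV.hdet i s) (Rel τ D b ω))
          (fun q => h ω (q.1.map τ.symm, q.2.map τ.symm)) w) /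
          ((max (m + 1) M : ℕ) : ℝ)) ^ 2 := by
    refine Finset.sum_congr rfl fun m _ => ?_
    congr 1
    refine Finset.sum_congr rfl fun w hw => ?_
    have hw' : w ∈ W τ D b ω m := hw
    have e : steps (w.map τ.symm, ω) = m := by
      rw [mem_W' hτa hτ] at hw'
      unfold steps
      show (w.map τ.symm).length - 1 = m
      rw [List.length_map, hw'.2]
      omega
    show ((x ^ s * ∑ᶠ q ∈ Up i (i + s) D (w.map τ.symm, ω), h ω q -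
        ∑ᶠ q ∈ Down i (i + s) D (w.map τ.symm, ω), h ω q) /
        ((max (steps (w.map τ.symm, ω) + 1) M : ℕ) : ℝ)) ^ 2 = _
    rw [e, sum_Up hτa hτ D b ω m hw' i s (h ω), sum_Down hτa hτ D b ω m hw' i s (h ω)]
  rw [e1]
  refine hbal.trans ?_
  have e2 : ∑ m ∈ Finset.range D.card, x ^ m *
      (((Q294.Rs.inn (Q78.CV.hdet i s) (Rel τ D b ω)).K m).card : ℝ) =
      Q78.CV.TT TH966.AK.Hex.A (Rel τ D b ω) x D.card := rfl
  rw [e2]
  refine mul_le_mul_of_nonneg_right ?_ (hT ω)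
  have : 0 < x ^ s := by positivity
  gcongr
  linarith

/-- the second part -/
theorem part_two : ∃ C κ : ℝ, 0 < C ∧ 1 < κ ∧ ∀ n x : ℝ, 0 ≤ n → 0 < x → x ≤ κ * xc 0 →
    ∀ (D : Finset (ℤ × ℤ)) (a b : ℤ × ℤ), 0 < Zpath n x D a b →
    ∀ ε : ℝ, 0 < ε → ε ≤ 1 → ∀ m : ℕ, C * (1 + max 0 (Real.log (1 / G n x D a b))) ≤ m →
      Pr n x D a b (fun c => m ≤ steps c ∧ ε * (Up 3 5 D c).ncard ≤
        |((Down 3 5 D c).ncard : ℝ) - x ^ 2 * (Up 3 5 D c).ncard|) ≤ C / (ε ^ 2 * m) := by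
  classical
  obtain ⟨-, K, Gr⟩ := TH966.AK.hex_growth _ (fun n => rfl)
  obtain ⟨C, κ, r, hC, hκ, hr0, hr1, hmain⟩ := Q78.CV.ratio_law (Q294.Rs.loc_of Gr)
    (Q78.CV.hdet 3 2) (fun U U' h => ⟨TH966.AK.Hex.rule.pair U U' h, TH966.AK.Hex.rule.len U U' h⟩)
  obtain ⟨ρ, hρ⟩ : ∃ ρ, ρ = Real.log (1 / r) := ⟨_, rfl⟩
  have hρ0 : 0 < ρ := by
    rw [hρ]
    refine Real.log_pos ?_
    rw [lt_div_iff₀ hr0]
    linarith
  refine ⟨C + 2 * C / ρ + 2 / ρ + 1, κ, by positivity, hκ, ?_⟩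
  intro n x hn hx hxκ D a b hZ ε hε hε1 m hm
  obtain ⟨C1, hC1⟩ : ∃ C1, C1 = C + 2 * C / ρ + 2 / ρ + 1 := ⟨_, rfl⟩
  rw [← hC1] at hm ⊢
  obtain ⟨Lg, hLg⟩ : ∃ Lg, Lg = max 0 (Real.log (1 / G n x D a b)) := ⟨_, rfl⟩
  rw [← hLg] at hm
  have hLg0 : 0 ≤ Lg := by rw [hLg]; exact le_max_left _ _
  have hρi : 0 < 2 / ρ := by positivity
  have hCρ : 0 < 2 * C / ρ := by positivity
  have hC1' : 1 ≤ C1 := by rw [hC1]; linarith
  have hmR : (1 : ℝ) ≤ m := by nlinarith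
  have hm1 : 1 ≤ m := by exact_mod_cast hmR
  obtain ⟨τ, hτa, hτ⟩ := Q78.UR.hex_symm a
  have hs := sum_pos hn hx D
  have hZl : Zloops n x D = ∑ ω ∈ Lam D, wt n x ω := Zloops_eq n x D
  have hZl0 : 0 < Zloops n x D := by rw [hZl]; exact hs
  have hxμ : x * √(2 + √2) ≤ κ := by
    have hpos : 0 < √(2 + √2) := Real.sqrt_pos.2 (by positivity)
    unfold xc at hxκ
    rw [sub_zero, mul_one_div, le_div_iff₀ hpos] at hxκ
    exact hxκ
  have hG : 0 < G n x D a b := by unfold G; positivity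
  -- the sum
  have key : ∀ ω ∈ Lam D, wt n x ω * ∑ k ∈ Finset.range D.card, x ^ k *
        ∑ w ∈ W τ D b ω k, (if m ≤ steps (w.map τ.symm, ω) ∧
          ε * (Up 3 5 D (w.map τ.symm, ω)).ncard ≤
          |((Down 3 5 D (w.map τ.symm, ω)).ncard : ℝ) -
            x ^ 2 * (Up 3 5 D (w.map τ.symm, ω)).ncard| then (1 : ℝ) else 0) ≤
      wt n x ω * (C / (ε ^ 2 * m) * Q78.CV.TT TH966.AK.Hex.A (Rel τ D b ω) x D.card +
        C * r ^ m) := by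
    intro ω _
    refine mul_le_mul_of_nonneg_left ?_ (wt_nonneg hn hx ω)
    refine le_trans (le_of_eq ?_) (hmain (Rel τ D b ω) D.card
      (fun k hk => W_empty hτa hτ D b ω k hk) x hx hxμ m hm1 ε hε)
    refine Finset.sum_congr rfl fun k _ => ?_
    congr 1
    rw [Finset.card_filter, Nat.cast_sum]
    refine Finset.sum_congr rfl fun w hw => ?_
    have hw' : w ∈ W τ D b ω k := hw
    have e : steps (w.map τ.symm, ω) = k := by
      rw [mem_W' hτa hτ] at hw'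
      unfold steps
      show (w.map τ.symm).length - 1 = k
      rw [List.length_map, hw'.2]
      omega
    have h1 := card_Up hτa hτ D b ω k hw' 3 2
    have h2 := card_Down hτa hτ D b ω k hw' 3 2
    have e3 : (3 : ℕ) + 2 = 5 := rfl
    rw [e3] at h1 h2
    have e4 : (Q78.CV.hdet 3 2).s = 2 := rfl
    rw [e, h1, h2, e4]
    by_cases hc : m ≤ k ∧ ε * Q78.CV.nS (Q78.CV.hdet 3 2) (Rel τ D b ω) w ≤
        |Q78.CV.nB (Q78.CV.hdet 3 2) (Rel τ D b ω) w -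
          x ^ 2 * Q78.CV.nS (Q78.CV.hdet 3 2) (Rel τ D b ω) w|
    · rw [if_pos hc, if_pos hc, Nat.cast_one]
    · rw [if_neg hc, if_neg hc, Nat.cast_zero]
  have hsum := Finset.sum_le_sum key
  have hPr : Pr n x D a b (fun c => m ≤ steps c ∧ ε * (Up 3 5 D c).ncard ≤
        |((Down 3 5 D c).ncard : ℝ) - x ^ 2 * (Up 3 5 D c).ncard|) ≤
      C / (ε ^ 2 * m) + C * r ^ m / G n x D a b := by
    unfold Pr E
    rw [sum_conf_weight hτa hτ]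
    rw [div_le_iff₀ hZ]
    refine le_trans (le_of_eq ?_) (hsum.trans (le_of_eq ?_))
    · refine Finset.sum_congr rfl fun ω _ => ?_
      congr 1
      refine Finset.sum_congr rfl fun k _ => ?_
      congr 1
      refine Finset.sum_congr rfl fun w _ => ?_
      dsimp only
      congr
    have e1 : ∑ ω ∈ Lam D, wt n x ω * (C / (ε ^ 2 * m) *
        Q78.CV.TT TH966.AK.Hex.A (Rel τ D b ω) x D.card + C * r ^ m) =
        C / (ε ^ 2 * m) * Zpath n x D a b + C * r ^ m * Zloops n x D := by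
      rw [Zpath_eq hτa hτ, hZl, Finset.mul_sum, Finset.mul_sum, ← Finset.sum_add_distrib]
      exact Finset.sum_congr rfl fun ω _ => by ring
    rw [e1]
    unfold G
    field_simp
  refine hPr.trans ?_
  have hGi : 1 / G n x D a b ≤ Real.exp Lg := by
    rw [← Real.exp_log (show 0 < 1 / G n x D a b by positivity), hLg]
    exact Real.exp_le_exp.2 (le_max_right _ _)
  have hrm : r ^ m = Real.exp (-(ρ * m)) := by
    rw [hρ, one_div, Real.log_inv, neg_mul, neg_neg, mul_comm, Real.exp_nat_mul,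
      Real.exp_log hr0]
  have hLm : Lg ≤ ρ * m / 2 := by
    have h1 : 2 / ρ * Lg ≤ m := by nlinarith
    rw [div_mul_eq_mul_div, div_le_iff₀ hρ0] at h1
    linarith
  have hexp : r ^ m / G n x D a b ≤ 2 / (ρ * m) := by
    calc r ^ m / G n x D a b = r ^ m * (1 / G n x D a b) := by ring
      _ ≤ Real.exp (-(ρ * m)) * Real.exp Lg := by
          rw [hrm]
          exact mul_le_mul_of_nonneg_left hGi (Real.exp_pos _).le
      _ = Real.exp (-(ρ * m) + Lg) := (Real.exp_add _ _).symm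
      _ ≤ Real.exp (-(ρ * m / 2)) := Real.exp_le_exp.2 (by linarith)
      _ = 1 / Real.exp (ρ * m / 2) := by rw [Real.exp_neg, one_div]
      _ ≤ 1 / (ρ * m / 2) := by
          refine one_div_le_one_div_of_le (by positivity) ?_
          linarith [Real.add_one_le_exp (ρ * m / 2)]
      _ = _ := by field_simp
  have hε2 : ε ^ 2 ≤ 1 := pow_le_one₀ hε.le hε1
  calc C / (ε ^ 2 * m) + C * r ^ m / G n x D a b =
        C / (ε ^ 2 * m) + C * (r ^ m / G n x D a b) := by ring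
    _ ≤ C / (ε ^ 2 * m) + C * (2 / (ρ * m)) := by gcongr
    _ ≤ C / (ε ^ 2 * m) + C * (2 / (ρ * (ε ^ 2 * m))) := by
        gcongr
        nlinarith
    _ = (C + 2 * C / ρ) / (ε ^ 2 * m) := by field_simp
    _ ≤ _ := by
        refine div_le_div_of_nonneg_right ?_ (by positivity)
        rw [hC1]
        linarith

/-- **Main result.** -/
theorem result :
    (∀ i s : ℕ, ∃ C : ℝ, 0 < C ∧ ∀ n x : ℝ, 0 ≤ n → 0 < x →
      ∀ (D : Finset (ℤ × ℤ)) (a b : ℤ × ℤ)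
      (h : Finset (Sym2 (ℤ × ℤ)) → List (ℤ × ℤ) × List (ℤ × ℤ) → ℝ), (∀ ω q, |h ω q| ≤ 1) →
      ∀ M : ℕ, 1 ≤ M →
        E n x D a b (fun c => ((x ^ s * ∑ᶠ q ∈ Up i (i + s) D c, h c.2 q -
          ∑ᶠ q ∈ Down i (i + s) D c, h c.2 q) / ((max (steps c + 1) M : ℕ) : ℝ)) ^ 2) ≤
          C * (x ^ s * (1 + x ^ s)) / M) ∧
    ∃ C κ n₀ : ℝ, 0 < C ∧ 1 < κ ∧ 0 < n₀ ∧ (∀ n, 0 ≤ n → n ≤ n₀ → xc n < κ * xc 0) ∧
      ∀ n x : ℝ, 0 ≤ n → 0 < x → x ≤ κ * xc 0 →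
      ∀ (D : Finset (ℤ × ℤ)) (a b : ℤ × ℤ), 0 < Zpath n x D a b →
      ∀ ε : ℝ, 0 < ε → ε ≤ 1 → ∀ m : ℕ, C * (1 + max 0 (Real.log (1 / G n x D a b))) ≤ m →
        Pr n x D a b (fun c => m ≤ steps c ∧ ε * (Up 3 5 D c).ncard ≤
          |((Down 3 5 D c).ncard : ℝ) - x ^ 2 * (Up 3 5 D c).ncard|) ≤ C / (ε ^ 2 * m) := by
  refine ⟨part_one, ?_⟩
  obtain ⟨C, κ, hC, hκ, h⟩ := part_two
  obtain ⟨n₀, hn₀, hxc⟩ := xc_lt hκ
  exact ⟨C, κ, n₀, hC, hκ, hn₀, hxc, h⟩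

end Pool.Agent.Results.MP_4960b8_pr.LocalBalance
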