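import Pool.Agent.Q78.UR.Disc
import Pool.Agent.Q78.UR.Fug2

set_option autoImplicit false

/-!
# The number of steps of the boundary path in the O(n) loop model
-/

namespace Pool.Agent.Results.MP_4960b8_pr.PathLength

open Filter Topology

/-- adjacency of the honeycomb lattice in brick-wall coordinates -/
def Adj (p q : ℤ × ℤ) : Prop :=
  q - p = (1, 0) ∨ q - p = (-1, 0) ∨
    (q - p = (0, 1) ∧ Even (p.1 + p.2)) ∨ (q - p = (0, -1) ∧ Even (q.1 + q.2))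

/-- self-avoiding paths with `m` steps from `a` to `b` in the finite domain `D` -/
def IsPath (D : Finset (ℤ × ℤ)) (a b : ℤ × ℤ) (m : ℕ) (γ : Fin (m + 1) → ℤ × ℤ) : Prop :=
  γ 0 = a ∧ γ (Fin.last m) = b ∧ Function.Injective γ ∧
    (∀ i : Fin m, Adj (γ i.castSucc) (γ i.succ)) ∧ ∀ i, γ i ∈ D

/-- loop configurations: sets of edges of `D` such that every vertex has degree 0 or 2 -/
def IsLoops (D : Finset (ℤ × ℤ)) (ω : Finset (Sym2 (ℤ × ℤ))) : Prop :=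
  (∀ e ∈ ω, ∃ p ∈ D, ∃ q ∈ D, Adj p q ∧ e = s(p, q)) ∧
    ∀ v, (ω.filter (fun e => v ∈ e)).card = 0 ∨ (ω.filter (fun e => v ∈ e)).card = 2

/-- the number of loops: connected components with at least two vertices -/
noncomputable def loops (ω : Finset (Sym2 (ℤ × ℤ))) : ℕ :=
  Nat.card {c : (SimpleGraph.fromEdgeSet (ω : Set (Sym2 (ℤ × ℤ)))).ConnectedComponent //
    c.supp.Nontrivial}

/-- configurations of the loop model with a path of `m` steps from `a` to `b`, disjoint from the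
loops, which stays in a set that may depend on the loops -/
def Conf (D : Finset (ℤ × ℤ)) (a b : ℤ × ℤ) (m : ℕ) (U : Finset (Sym2 (ℤ × ℤ)) → Set (ℤ × ℤ)) :
    Set ((Fin (m + 1) → ℤ × ℤ) × Finset (Sym2 (ℤ × ℤ))) :=
  {c | IsPath D a b m c.1 ∧ IsLoops D c.2 ∧ (∀ i, ∀ e ∈ c.2, c.1 i ∉ e) ∧ ∀ i, c.1 i ∈ U c.2}

/-- their total weight -/
noncomputable def Zm (n x : ℝ) (D : Finset (ℤ × ℤ)) (a b : ℤ × ℤ) (m : ℕ)
    (U : Finset (Sym2 (ℤ × ℤ)) → Set (ℤ × ℤ)) : ℝ :=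
  ∑ᶠ c ∈ Conf D a b m U, x ^ (m + c.2.card) * n ^ loops c.2

/-- the partition function of the model with a path -/
noncomputable def Zpath (n x : ℝ) (D : Finset (ℤ × ℤ)) (a b : ℤ × ℤ) : ℝ :=
  ∑' m : ℕ, Zm n x D a b m (fun _ => Set.univ)

/-- the partition function of the loops alone -/
noncomputable def Zloops (n x : ℝ) (D : Finset (ℤ × ℤ)) : ℝ :=
  ∑ᶠ ω ∈ {ω | IsLoops D ω}, x ^ ω.card * n ^ loops ω

/-- the two-point function -/
noncomputable def G (n x : ℝ) (D : Finset (ℤ × ℤ)) (a b : ℤ × ℤ) : ℝ :=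
  Zpath n x D a b / Zloops n x D

/-- the probability that the path has `m` steps -/
noncomputable def P (n x : ℝ) (D : Finset (ℤ × ℤ)) (a b : ℤ × ℤ) (m : ℕ) : ℝ :=
  Zm n x D a b m (fun _ => Set.univ) / Zpath n x D a b

/-- the probability that the path has `m` steps and stays in `U` -/
noncomputable def J (n x : ℝ) (D : Finset (ℤ × ℤ)) (a b : ℤ × ℤ) (m : ℕ)
    (U : Finset (Sym2 (ℤ × ℤ)) → Set (ℤ × ℤ)) : ℝ :=
  Zm n x D a b m U / Zpath n x D a b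

/-- the conditional probability, given that the path has `m` steps, that it stays in `U` -/
noncomputable def Q (n x : ℝ) (D : Finset (ℤ × ℤ)) (a b : ℤ × ℤ) (m : ℕ)
    (U : Finset (Sym2 (ℤ × ℤ)) → Set (ℤ × ℤ)) : ℝ :=
  Zm n x D a b m U / Zm n x D a b m (fun _ => Set.univ)

/-- the critical points -/
noncomputable def xc (n : ℝ) : ℝ := 1 / √(2 + √(2 - n))

/-! ### proofs -/

theorem adj_eq : Adj = TH966.AK.AdjH := rfl

theorem loops_finite (D : Finset (ℤ × ℤ)) : {ω | IsLoops D ω}.Finite := by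
  classical
  refine Set.Finite.subset (Finset.finite_toSet
    ((D ×ˢ D).image (fun p => s(p.1, p.2))).powerset) ?_
  intro ω hω
  rw [Finset.mem_coe, Finset.mem_powerset]
  intro e he
  obtain ⟨p, hp, q, hq, -, rfl⟩ := hω.1 e he
  rw [Finset.mem_image]
  exact ⟨(p, q), Finset.mem_product.2 ⟨hp, hq⟩, rfl⟩

theorem paths_finite (D : Finset (ℤ × ℤ)) (a b : ℤ × ℤ) (m : ℕ) :
    {γ | IsPath D a b m γ}.Finite :=
  Set.Finite.subset (Set.Finite.pi' (fun _ => D.finite_toSet)) fun _ h i => h.2.2.2.2 i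

/-- the finset of loop configurations -/
noncomputable def Lam (D : Finset (ℤ × ℤ)) : Finset (Finset (Sym2 (ℤ × ℤ))) :=
  (loops_finite D).toFinset

theorem mem_Lam {D : Finset (ℤ × ℤ)} {ω : Finset (Sym2 (ℤ × ℤ))} : ω ∈ Lam D ↔ IsLoops D ω := by
  unfold Lam
  rw [Set.Finite.mem_toFinset]
  rfl

/-- the weight of the loops -/
noncomputable def wt (n x : ℝ) (ω : Finset (Sym2 (ℤ × ℤ))) : ℝ := x ^ ω.card * n ^ loops ω

theorem wt_nonneg {n x : ℝ} (hn : 0 ≤ n) (hx : 0 < x) (ω : Finset (Sym2 (ℤ × ℤ))) :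
    0 ≤ wt n x ω := by
  unfold wt
  positivity

theorem Zloops_eq (n x : ℝ) (D : Finset (ℤ × ℤ)) : Zloops n x D = ∑ ω ∈ Lam D, wt n x ω := by
  unfold Zloops
  rw [← finsum_mem_coe_finset]
  refine finsum_mem_congr ?_ fun _ _ => rfl
  ext ω
  rw [Finset.mem_coe, mem_Lam]
  rfl

theorem loops_empty : loops ∅ = 0 := by
  unfold loops
  have : IsEmpty {c : (SimpleGraph.fromEdgeSet
      ((∅ : Finset (Sym2 (ℤ × ℤ))) : Set (Sym2 (ℤ × ℤ)))).ConnectedComponent //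
      c.supp.Nontrivial} := by
    refine ⟨?_⟩
    rintro ⟨c, v, hv, u, hu, huv⟩
    rw [SimpleGraph.ConnectedComponent.mem_supp_iff] at hv hu
    rw [← hu, SimpleGraph.ConnectedComponent.eq] at hv
    rw [Finset.coe_empty, SimpleGraph.fromEdgeSet_empty] at hv
    exact huv (SimpleGraph.reachable_bot.1 hv)
  exact Nat.card_of_isEmpty

theorem empty_mem (D : Finset (ℤ × ℤ)) : (∅ : Finset (Sym2 (ℤ × ℤ))) ∈ Lam D := by
  rw [mem_Lam]
  exact ⟨fun e he => absurd he (Finset.notMem_empty e), fun v => Or.inl rfl⟩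

theorem sum_pos {n x : ℝ} (hn : 0 ≤ n) (hx : 0 < x) (D : Finset (ℤ × ℤ)) :
    0 < ∑ ω ∈ Lam D, wt n x ω := by
  have h1 : wt n x ∅ = 1 := by
    unfold wt
    rw [loops_empty, Finset.card_empty, pow_zero, pow_zero, one_mul]
  have h2 : wt n x ∅ ≤ ∑ ω ∈ Lam D, wt n x ω :=
    Finset.single_le_sum (fun ω _ => wt_nonneg hn hx ω) (empty_mem D)
  rw [h1] at h2
  linarith

/-- the restricted paths for given loops -/
def RP (D : Finset (ℤ × ℤ)) (a b : ℤ × ℤ) (m : ℕ) (U : Finset (Sym2 (ℤ × ℤ)) → Set (ℤ × ℤ))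
    (ω : Finset (Sym2 (ℤ × ℤ))) (γ : Fin (m + 1) → ℤ × ℤ) : Prop :=
  IsPath D a b m γ ∧ (∀ i, ∀ e ∈ ω, γ i ∉ e) ∧ ∀ i, γ i ∈ U ω

theorem Zm_eq (n x : ℝ) (D : Finset (ℤ × ℤ)) (a b : ℤ × ℤ) (m : ℕ)
    (U : Finset (Sym2 (ℤ × ℤ)) → Set (ℤ × ℤ)) :
    Zm n x D a b m U = x ^ m * ∑ ω ∈ Lam D, wt n x ω * (Nat.card {γ // RP D a b m U ω γ} : ℝ) := by
  classical
  obtain ⟨Γ, hΓ⟩ : ∃ Γ : Finset (Fin (m + 1) → ℤ × ℤ), ∀ γ, γ ∈ Γ ↔ IsPath D a b m γ :=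
    ⟨(paths_finite D a b m).toFinset, fun γ => by rw [Set.Finite.mem_toFinset]; rfl⟩
  have hS : Conf D a b m U = (((Γ ×ˢ Lam D).filter (fun c => (∀ i, ∀ e ∈ c.2, c.1 i ∉ e) ∧
      ∀ i, c.1 i ∈ U c.2) : Finset _) : Set ((Fin (m + 1) → ℤ × ℤ) × Finset (Sym2 (ℤ × ℤ)))) := by
    ext c
    rw [Finset.mem_coe, Finset.mem_filter, Finset.mem_product, hΓ, mem_Lam]
    unfold Conf
    rw [Set.mem_ofPred_eq]
    tauto
  unfold Zm
  rw [hS, finsum_mem_coe_finset, Finset.sum_filter, Finset.sum_product_right, Finset.mul_sum]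
  refine Finset.sum_congr rfl fun ω _ => ?_
  have hc : (Nat.card {γ // RP D a b m U ω γ}) =
      (Γ.filter (fun γ => (∀ i, ∀ e ∈ ω, γ i ∉ e) ∧ ∀ i, γ i ∈ U ω)).card := by
    refine Nat.subtype_card _ fun γ => ?_
    rw [Finset.mem_filter, hΓ]
    rfl
  rw [hc, ← Finset.sum_filter]
  dsimp only
  rw [Finset.sum_const, nsmul_eq_mul]
  unfold wt
  rw [pow_add]
  ring

/-- the relation after moving `a` to the origin -/
def Rel (τ : ℤ × ℤ ≃ ℤ × ℤ) (D : Finset (ℤ × ℤ)) (b : ℤ × ℤ)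
    (U : Finset (Sym2 (ℤ × ℤ)) → Set (ℤ × ℤ)) (ω : Finset (Sym2 (ℤ × ℤ))) (e y : ℤ × ℤ) : Prop :=
  e = τ b ∧ τ.symm y ∈ D ∧ (∀ e' ∈ ω, τ.symm y ∉ e') ∧ τ.symm y ∈ U ω

theorem card_eq {τ : ℤ × ℤ ≃ ℤ × ℤ} {a : ℤ × ℤ} (hτa : τ a = 0)
    (hτ : ∀ p q, Adj (τ p) (τ q) ↔ Adj p q) (D : Finset (ℤ × ℤ)) (b : ℤ × ℤ) (m : ℕ)
    (U : Finset (Sym2 (ℤ × ℤ)) → Set (ℤ × ℤ)) (ω : Finset (Sym2 (ℤ × ℤ))) :
    (Q294.Rs.KR TH966.AK.Hex.A (Rel τ D b U ω) m).card = Nat.card {γ // RP D a b m U ω γ} := by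
  rw [Q78.UR.card_KR_fun TH966.AK.Hex.rule, ← TH966.AK.adjH_eq, ← adj_eq]
  symm
  refine Nat.card_congr (Equiv.subtypeEquiv (Equiv.piCongrRight (fun _ => τ)) fun γ => ?_)
  have e : ∀ i, (Equiv.piCongrRight (fun _ : Fin (m + 1) => τ)) γ i = τ (γ i) := fun i => rfl
  simp only [e]
  unfold RP IsPath Rel
  simp only [hτ, Equiv.symm_apply_apply]
  constructor
  · rintro ⟨⟨h1, h2, h3, h4, h5⟩, h6, h7⟩
    refine ⟨⟨by rw [h1, hτa], fun i j hij => h3 ?_, h4⟩, fun i => ⟨by rw [h2], h5 i, h6 i, h7 i⟩⟩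
    have h' : τ (γ i) = τ (γ j) := hij
    exact τ.injective h'
  · rintro ⟨⟨h1, h2, h3⟩, h4⟩
    refine ⟨⟨τ.injective (by rw [h1, hτa]), τ.injective (h4 0).1, fun i j hij => h2 ?_, h3,
      fun i => (h4 i).2.1⟩, fun i => (h4 i).2.2.1, fun i => (h4 i).2.2.2⟩
    show τ (γ i) = τ (γ j)
    rw [hij]

theorem Zm_zero {n x : ℝ} {D : Finset (ℤ × ℤ)} {a b : ℤ × ℤ} {m : ℕ} (hm : D.card ≤ m)
    (U : Finset (Sym2 (ℤ × ℤ)) → Set (ℤ × ℤ)) : Zm n x D a b m U = 0 := by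
  unfold Zm
  have : Conf D a b m U = ∅ := by
    rw [Set.eq_empty_iff_forall_notMem]
    rintro c ⟨h, -⟩
    have h1 : (Finset.univ.image c.1).card = m + 1 := by
      rw [Finset.card_image_of_injective _ h.2.2.1, Finset.card_univ, Fintype.card_fin]
    have h2 : Finset.univ.image c.1 ⊆ D := by
      intro v hv
      rw [Finset.mem_image] at hv
      obtain ⟨i, -, rfl⟩ := hv
      exact h.2.2.2.2 i
    have h3 := Finset.card_le_card h2
    omega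
  rw [this, finsum_mem_empty]

theorem xc_lt {κ : ℝ} (hκ : 1 < κ) : ∃ n₀ : ℝ, 0 < n₀ ∧ ∀ n, 0 ≤ n → n ≤ n₀ → xc n < κ * xc 0 := by
  have hc : ContinuousAt (fun n : ℝ => 1 / √(2 + √(2 - n))) 0 := by
    refine ContinuousAt.div continuousAt_const (by fun_prop) ?_
    exact (Real.sqrt_pos.2 (by positivity)).ne'
  have h0 : xc 0 < κ * xc 0 := by
    have : 0 < xc 0 := by unfold xc; positivity
    nlinarith
  have h1 := hc.eventually (eventually_lt_nhds h0)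
  rw [Metric.eventually_nhds_iff] at h1
  obtain ⟨ε, hε, h2⟩ := h1
  refine ⟨ε / 2, by linarith, fun n hn hn2 => h2 ?_⟩
  rw [Real.dist_eq, sub_zero, abs_of_nonneg hn]
  linarith

/-- **Main result.** -/
theorem result : ∃ C κ δ n₀ : ℝ, 0 < C ∧ 1 < κ ∧ 0 < δ ∧ 0 < n₀ ∧
    (∀ n, 0 ≤ n → n ≤ n₀ → xc n < κ * xc 0) ∧
    ∀ n x : ℝ, 0 ≤ n → 0 < x → x ≤ κ * xc 0 →
    ∀ (D : Finset (ℤ × ℤ)) (a b : ℤ × ℤ), 0 < Zpath n x D a b →
    ∀ m : ℕ, C * (1 + max 0 (Real.log (1 / G n x D a b))) ≤ m →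
      P n x D a b m ≤ C / √(m : ℝ) ∧
      (∀ (U : Finset (Sym2 (ℤ × ℤ)) → Set (ℤ × ℤ)) (k : ℕ),
        ∑ i ∈ Finset.range k, |J n x D a b (m + i + 2) U - J n x D a b (m + i) U| ≤
          C / √(m : ℝ)) ∧
      (Real.exp (-δ * m) ≤ P n x D a b m →
        |P n x D a b (m + 2) / P n x D a b m - 1| ≤
          C * √((1 + Real.log (1 / P n x D a b m)) / m) ∧
        ∀ U : Finset (Sym2 (ℤ × ℤ)) → Set (ℤ × ℤ),
          |Q n x D a b (m + 2) U - Q n x D a b m U| ≤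
            C * √((1 + Real.log (1 / P n x D a b m)) / m)) := by
  obtain ⟨-, K, Gr⟩ := TH966.AK.hex_growth _ (fun n => rfl)
  obtain ⟨C, κ, δ, hC, hκ, hδ, hmain⟩ := Q78.UR.fug2 Gr
  obtain ⟨n₀, hn₀, hxc⟩ := xc_lt hκ
  refine ⟨C, κ, δ, n₀, hC, hκ, hδ, hn₀, hxc, ?_⟩
  intro n x hn hx hxκ D a b hZ m hm
  obtain ⟨τ, hτa, hτ⟩ := Q78.UR.hex_symm a
  have hw : ∀ ω ∈ Lam D, 0 ≤ wt n x ω := fun ω _ => wt_nonneg hn hx ω
  have hs := sum_pos hn hx D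
  have hZl : Zloops n x D = ∑ ω ∈ Lam D, wt n x ω := Zloops_eq n x D
  have hZl0 : 0 < Zloops n x D := by rw [hZl]; exact hs
  have hFF : ∀ (U : Finset (Sym2 (ℤ × ℤ)) → Set (ℤ × ℤ)) (k : ℕ),
      @Q78.UR.FF _ ⊤ TH966.AK.Hex.A (Q78.UR.wlaw (Lam D) (wt n x)) (Rel τ D b U) k * x ^ k =
        Zm n x D a b k U / Zloops n x D := by
    intro U k
    rw [Q78.UR.FF_wlaw _ _ hw hs, Zm_eq, hZl]
    simp only [card_eq hτa hτ]
    ring
  have hsumm : Summable (fun k => Zm n x D a b k (fun _ => Set.univ)) :=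
    summable_of_ne_finset_zero (s := Finset.range D.card) fun k hk =>
      Zm_zero (by rw [Finset.mem_range] at hk; omega) _
  have hnn : ∀ k, 0 ≤ Zm n x D a b k (fun _ => Set.univ) := by
    intro k
    rw [Zm_eq]
    refine mul_nonneg (by positivity) (Finset.sum_nonneg fun ω hω => ?_)
    exact mul_nonneg (hw ω hω) (Nat.cast_nonneg _)
  have hT : 0 < G n x D a b := by unfold G; positivity
  let _ : MeasurableSpace (Finset (Sym2 (ℤ × ℤ))) := ⊤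
  have := Q78.UR.wlaw_prob (Lam D) (wt n x) hw hs
  have hxμ : x * √(2 + √2) ≤ κ := by
    have hpos : 0 < √(2 + √2) := Real.sqrt_pos.2 (by positivity)
    unfold xc at hxκ
    rw [sub_zero, mul_one_div, le_div_iff₀ hpos] at hxκ
    exact hxκ
  have h := hmain (Finset (Sym2 (ℤ × ℤ))) (Q78.UR.wlaw (Lam D) (wt n x))
    (Rel τ D b (fun _ => Set.univ)) (fun _ _ => trivial) x (G n x D a b) hx hxμ hT
    (fun M => by
      simp only [hFF]
      rw [← Finset.sum_div]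
      unfold G
      refine div_le_div_of_nonneg_right ?_ hZl0.le
      exact hsumm.sum_le_tsum _ (fun k _ => hnn k)) m hm
  have hZ' : (TH966.AK.Hex.rule).s = 2 := rfl
  rw [hZ'] at h
  have hP : ∀ k, @Q78.UR.FF _ ⊤ TH966.AK.Hex.A (Q78.UR.wlaw (Lam D) (wt n x))
      (Rel τ D b (fun _ => Set.univ)) k * x ^ k / G n x D a b = P n x D a b k := by
    intro k
    rw [hFF]
    unfold G P
    rw [div_div_div_cancel_right₀ hZl0.ne']
  have hR : @Q78.UR.FF _ ⊤ TH966.AK.Hex.A (Q78.UR.wlaw (Lam D) (wt n x))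
      (Rel τ D b (fun _ => Set.univ)) (m + 2) * x ^ (m + 2) /
      (@Q78.UR.FF _ ⊤ TH966.AK.Hex.A (Q78.UR.wlaw (Lam D) (wt n x))
      (Rel τ D b (fun _ => Set.univ)) m * x ^ m) = P n x D a b (m + 2) / P n x D a b m := by
    rw [← hP, ← hP, div_div_div_cancel_right₀ hT.ne']
  rw [hR] at h
  simp only [hP] at h
  have hJ : ∀ (U : Finset (Sym2 (ℤ × ℤ)) → Set (ℤ × ℤ)) (k : ℕ),
      @Q78.UR.FF _ ⊤ TH966.AK.Hex.A (Q78.UR.wlaw (Lam D) (wt n x))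
      (Rel τ D b U) k * x ^ k / G n x D a b = J n x D a b k U := by
    intro U k
    rw [hFF]
    unfold G J
    rw [div_div_div_cancel_right₀ hZl0.ne']
  refine ⟨h.1, fun U k => ?_, fun hexp => ⟨(h.2.2 hexp).1, fun U => ?_⟩⟩
  · have h' := h.2.1 (Rel τ D b U) (fun _ _ => trivial) (fun ω e y hy =>
      ⟨hy.1, hy.2.1, hy.2.2.1, trivial⟩) k
    simp only [hJ] at h'
    exact h'
  have hQ : ∀ k, @Q78.UR.FF _ ⊤ TH966.AK.Hex.A (Q78.UR.wlaw (Lam D) (wt n x)) (Rel τ D b U) k /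
      @Q78.UR.FF _ ⊤ TH966.AK.Hex.A (Q78.UR.wlaw (Lam D) (wt n x))
        (Rel τ D b (fun _ => Set.univ)) k = Q n x D a b k U := by
    intro k
    have hxk : x ^ k ≠ 0 := by positivity
    rw [← mul_div_mul_right _ _ hxk, hFF, hFF]
    unfold Q
    rw [div_div_div_cancel_right₀ hZl0.ne']
  have h' := (h.2.2 hexp).2 (Rel τ D b U) (fun _ _ => trivial) (fun ω e y hy =>
    ⟨hy.1, hy.2.1, hy.2.2.1, trivial⟩)
  rw [hQ, hQ] at h'
  exact h'

end Pool.Agent.Results.MP_4960b8_pr.PathLength
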