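import Pool.Agent.Q294.Sv2

set_option autoImplicit false

/-!
# The critical boundary path of the O(0) model in a strip rarely touches the boundary

For the critical O(`n`) boundary path with `n = 0` on the hexagonal lattice, in a strip, from a fixed
vertex of the lowest level to the highest level (free end), the mean number of vertices of the lowest
level which are visited after the path has reached distance `R` from its start is at most
`3400 R ^ (-23/200)`, uniformly in the width of the strip; the mean number of all the boundary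
vertices visited is at most `2 * 3401`.

Idea: a path is cut at a visit of the lowest level: the first piece is a half-plane arc, the second
a translate of a crossing path. The mass of the arcs of extent at least `R` is controlled by the
masses of the walks which cross strips. The other boundary is treated by reversal.
-/

namespace Pool.Agent.Results.MP_4960b8_pr.StripBoundaryVisits

open scoped ENNReal

/-- Adjacency in the honeycomb lattice (brick-wall coordinates). -/
def Nbr (p q : ℤ × ℤ) : Prop :=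
  (p.2 = q.2 ∧ (p.1 - q.1 = 1 ∨ q.1 - p.1 = 1)) ∨
    (p.1 = q.1 ∧ ((q.2 = p.2 + 1 ∧ Even (p.1 + p.2)) ∨ (p.2 = q.2 + 1 ∧ Even (q.1 + q.2))))

/-- The self-avoiding trajectories from `a` to `b` in `D`, as lists of vertices. -/
def Traj (D : Set (ℤ × ℤ)) (a b : ℤ × ℤ) : Set (List (ℤ × ℤ)) :=
  {l | l.head? = some a ∧ l.getLast? = some b ∧ l.Nodup ∧ l.IsChain Nbr ∧ ∀ p ∈ l, p ∈ D}

/-- The critical fugacity `1 / μ`. -/
noncomputable def xc : ℝ≥0∞ := ENNReal.ofReal (1 / Real.sqrt (2 + Real.sqrt 2))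

/-- the strip with `2 T` levels; the level of `p` is `p.1 - p.2` -/
def Strip (T : ℕ) : Set (ℤ × ℤ) := {p | 1 ≤ p.1 - p.2 ∧ p.1 - p.2 ≤ 2 * T}

/-- the paths which cross the strip, from `(1, 0)` to its highest level -/
def Cross (T : ℕ) : Set (List (ℤ × ℤ)) :=
  {l | ∃ x : ℤ, l ∈ Traj (Strip T) (1, 0) (2 * T + x, x)}

/-- the crossing paths which stay in `D` -/
def CrossIn (T : ℕ) (D : Set (ℤ × ℤ)) : Set (List (ℤ × ℤ)) := {l | l ∈ Cross T ∧ ∀ p ∈ l, p ∈ D}

/-- the partition function of a set of paths -/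
noncomputable def Z (S : Set (List (ℤ × ℤ))) : ℝ≥0∞ := ∑' l : S, xc ^ (l.1.length - 1)

/-- the mean of `f` for the critical path which is in `S` -/
noncomputable def mean (S : Set (List (ℤ × ℤ))) (f : List (ℤ × ℤ) → ℕ) : ℝ≥0∞ :=
  (∑' l : S, xc ^ (l.1.length - 1) * (f l.1 : ℝ≥0∞)) / Z S

/-- distance -/
def sd (u v : ℤ × ℤ) : ℕ := max (u.1 - v.1).natAbs (u.2 - v.2).natAbs

/-- the times `i` at which the path is at the lowest level and has already been at distance at least
`R` from its start -/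
def Low (R : ℕ) (l : List (ℤ × ℤ)) : Set ℕ :=
  {i | ∃ v, l[i]? = some v ∧ v.1 - v.2 = 1 ∧ ∃ k ≤ i, ∃ u, l[k]? = some u ∧ R ≤ sd u (1, 0)}

/-- the times `i` at which the path is at the highest level and from which on it is once more at
distance at least `R` from its end -/
def Top (T R : ℕ) (l : List (ℤ × ℤ)) : Set ℕ :=
  {i | ∃ v, l[i]? = some v ∧ v.1 - v.2 = 2 * T ∧
    ∃ k, i ≤ k ∧ ∃ u e, l[k]? = some u ∧ l.getLast? = some e ∧ R ≤ sd u e}

/-- **Theorem.** For every `T ≥ 1`: (1) the partition function is positive and finite; (2) for every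
`R ≥ 1`, the mean number of times of late visits of the lowest level, and of early visits of the
highest level, is at most `3400 * R ^ (-23/200)`; (3) for `R = 0` (all visits) it is at most `3401`;
(4) the probability that there is a late visit of the lowest level, or an early visit of the highest
level, is at most `6800 * R ^ (-23/200)`; (5) in a domain `D`, the means are at most
`3400 * R ^ (-23/200)` times the inverse of the probability that the path of the strip stays in
`D`. -/
theorem result (T : ℕ) (hT : 1 ≤ T) :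
    (0 < Z (Cross T) ∧ Z (Cross T) < ⊤) ∧
    (∀ R : ℕ, 1 ≤ R →
      mean (Cross T) (fun l => (Low R l).ncard) ≤
        ENNReal.ofReal (3400 * (R : ℝ) ^ (-(23 / 200) : ℝ)) ∧
      mean (Cross T) (fun l => (Top T R l).ncard) ≤
        ENNReal.ofReal (3400 * (R : ℝ) ^ (-(23 / 200) : ℝ))) ∧
    (mean (Cross T) (fun l => (Low 0 l).ncard) ≤ 3401 ∧
      mean (Cross T) (fun l => (Top T 0 l).ncard) ≤ 3401) ∧
    (∀ R : ℕ, 1 ≤ R →
      Z {l | l ∈ Cross T ∧ ((Low R l).Nonempty ∨ (Top T R l).Nonempty)} / Z (Cross T) ≤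
        ENNReal.ofReal (6800 * (R : ℝ) ^ (-(23 / 200) : ℝ))) ∧
    ∀ R : ℕ, 1 ≤ R → ∀ D : Set (ℤ × ℤ),
      mean (CrossIn T D) (fun l => (Low R l).ncard) ≤
        ENNReal.ofReal (3400 * (R : ℝ) ^ (-(23 / 200) : ℝ)) *
          (Z (Cross T) / Z (CrossIn T D)) ∧
      mean (CrossIn T D) (fun l => (Top T R l).ncard) ≤
        ENNReal.ofReal (3400 * (R : ℝ) ^ (-(23 / 200) : ℝ)) *
          (Z (Cross T) / Z (CrossIn T D)) := by
  have eC : Cross T = Q294.Sl.Cross T := rfl
  have eZ : ∀ S, Z S = Q294.Sl.mass S := fun _ => rfl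
  have eL : ∀ R, Low R = Q294.Sv.Low R := fun _ => rfl
  have eT : ∀ R, Top T R = Q294.Sv.Top T R := fun _ => rfl
  have ex : xc = Pool.Agent.W832.HR.xc := rfl
  have h34 : ENNReal.ofReal 3401 = 3401 := by norm_num
  have hD : ∀ D, CrossIn T D ⊆ Q294.Sl.Cross T := fun D l hl => hl.1
  unfold mean
  simp only [eZ, eL, eT, eC, ex]
  have h1 : ∀ R, (∑' l : Q294.Sl.Cross T, Pool.Agent.W832.HR.xc ^ (l.1.length - 1) *
      ((Q294.Sv.Low R l.1).ncard : ℝ≥0∞)) / Q294.Sl.mass (Q294.Sl.Cross T) ≤ Q294.Bd.mA R :=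
    fun R => ENNReal.div_le_of_le_mul (Q294.Sv.low_le T R)
  have h2 : ∀ R, (∑' l : Q294.Sl.Cross T, Pool.Agent.W832.HR.xc ^ (l.1.length - 1) *
      ((Q294.Sv.Top T R l.1).ncard : ℝ≥0∞)) / Q294.Sl.mass (Q294.Sl.Cross T) ≤ Q294.Bd.mA R :=
    fun R => ENNReal.div_le_of_le_mul (Q294.Sv.top_sum_le T R)
  refine ⟨⟨Q294.Sv.mass_gt' hT, (Q294.Sl.main_mass hT).2.2.1⟩,
    fun R hR => ⟨(h1 R).trans ((Q294.Sv.mA_fin R).2 hR), (h2 R).trans ((Q294.Sv.mA_fin R).2 hR)⟩,
    ⟨(h1 0).trans (h34 ▸ (Q294.Sv.mA_fin 0).1), (h2 0).trans (h34 ▸ (Q294.Sv.mA_fin 0).1)⟩,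
    fun R hR => ?_, fun R hR D => ⟨?_, ?_⟩⟩
  · have a1 := Q294.Sv.prob_le (T := T) (f := Q294.Sv.Low R) (Q294.Sv.low_fin R)
      (Q294.Sv.low_le T R)
    have a2 := Q294.Sv.prob_le (T := T) (f := Q294.Sv.Top T R) (Q294.Sv.top_fin T R)
      (Q294.Sv.top_sum_le T R)
    have a3 := (Q294.Sv.mA_fin R).2 hR
    refine (Q294.Sv.union_le (T := T) (f := Q294.Sv.Low R) (g := Q294.Sv.Top T R)).trans
      ((add_le_add (a1.trans a3) (a2.trans a3)).trans (le_of_eq ?_))
    rw [← ENNReal.ofReal_add (by positivity) (by positivity)]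
    congr 1
    ring
  · exact (Q294.Sv.quot (hD D) (f := fun l => (Q294.Sv.Low R l).ncard)
      (Q294.Sv.low_le T R)).trans (mul_le_mul_left ((Q294.Sv.mA_fin R).2 hR) _)
  · exact (Q294.Sv.quot (hD D) (f := fun l => (Q294.Sv.Top T R l).ncard)
      (Q294.Sv.top_sum_le T R)).trans (mul_le_mul_left ((Q294.Sv.mA_fin R).2 hR) _)

end Pool.Agent.Results.MP_4960b8_pr.StripBoundaryVisits
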